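import Mathlib
import Pool.Agent.TH59.WX.PG

/-!
# Extensions by direct products of wreath products `G ≀ S_n` over `κ(X)`, `κ` finite

Let `G i` be finitely many nontrivial finite groups with trivial centre such that the inner
automorphisms of `G i` have a complement in `Aut(G i)` (for example complete groups, or `A_m` with
`m ≥ 4`, `m ≠ 6`), and let `n i ≥ ((3|G i| + 2)!)^3`.  Let `κ` be ANY finite field (for example
`𝔽_p`, `p` any prime) and let `Y` be ANY finite group with a normal subgroup `N` isomorphic to the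
direct product of the wreath products `G i ≀ S_(n i)`.  Then `Y` occurs over `κ(X)` if and only if
`Y / N` does.
-/

set_option autoImplicit false

open Pool.Agent.TH59.WX

namespace Pool.Agent.Results.MP_7f581e_nt.ExtensionsByWreathProducts

/-- The group `G` occurs over the field `F`: there is a finite Galois extension `L` of `F` with
Galois group isomorphic to `G` (as in the frozen statement `S17569`). -/
def Occurs (F G : Type) [Field F] [Group G] : Prop :=
  ∃ (L : Type) (_ : Field L) (_ : Algebra F L),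
    FiniteDimensional F L ∧ IsGalois F L ∧ Nonempty ((L ≃ₐ[F] L) ≃* G)

theorem occurs_iff (F G : Type) [Field F] [Group G] [Finite G] :
    Occurs F G ↔ Nfff32c05.IsRealizable F G := by
  constructor
  · rintro ⟨L, i1, i2, i3, i4, ⟨e⟩⟩
    exact Pool.Agent.H391R2.isRealizable_of L e.symm
  · intro h
    obtain ⟨L, i1, i2, i3, i4, ⟨e⟩⟩ := exists_gal_of F G h
    exact ⟨L, i1, i2, i3, i4, ⟨e.symm⟩⟩

theorem result :
    ∀ (ι : Type) [Finite ι] (G : ι → Type) [∀ i, Group (G i)] [∀ i, Finite (G i)]
      [∀ i, Nontrivial (G i)] (n : ι → ℕ), (∀ i, Subgroup.center (G i) = ⊥) →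
      (∀ i, ∃ T : Subgroup (MulAut (G i)), IsCompl T (MulAut.conj : G i →* MulAut (G i)).range) →
      (∀ i, ((3 * Nat.card (G i) + 2).factorial) ^ 3 ≤ n i) →
      ∀ (κ : Type) [Field κ] [Finite κ] (Y : Type) [Group Y] [Finite Y] (N : Subgroup Y)
        [N.Normal],
        Nonempty (N ≃* (∀ i, (Fin (n i) → G i) ⋊[mulAutArrow] Equiv.Perm (Fin (n i)))) →
        (Occurs (RatFunc κ) Y ↔ Occurs (RatFunc κ) (Y ⧸ N)) := by
  intro ι _ G _ _ _ n hZ hT hn κ _ _ Y _ _ N _ hN
  rw [occurs_iff, occurs_iff]
  exact real_prod_ratFunc hZ hT hn κ Y N hN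

end Pool.Agent.Results.MP_7f581e_nt.ExtensionsByWreathProducts
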