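import Mathlib
import Pool.Agent.TH15.IGP.Uni

/-!
# Infinite towers of permutational wreath products over `κ(X)`, `κ` finite

`Wr G n` is the wreath product `G ≀ S_n = (Fin n → G) ⋊ Perm (Fin n)`. For a group `H` acting on a
set `X`, `PermWreath B X H = (X → B) ⋊ H`, where `h` in `H` sends `f` to `x ↦ f (h⁻¹ x)`.

Let `W 0, W 1, W 2, ...` be groups with `W (k + 1) = PermWreath (G k ≀ S_(n k)) (X k) (W k)` for
finite groups `G k`, numbers `n k ≥ ((|G k| + 2)!)^3` and arbitrary actions of `W k` on finite sets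
`X k`. Then, for every finite field `κ` (in particular for every prime field), every finite Galois
extension `L₀` of `κ(X)` with group `W 0` is contained in a Galois extension `L` of `κ(X)` whose
group is the inverse limit of the groups `W k`, compatibly with restriction to `L₀`.
-/

set_option autoImplicit false

open Pool.Agent.H391R2

namespace Pool.Agent.Results.MP_7f581e_nt.IteratedWreath

/-- The permutational wreath product `(X → B) ⋊ H`, for a group `H` acting on `X`. -/
abbrev PermWreath (B X H : Type) [Group B] [Group H] [MulAction H X] : Type :=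
  (X → B) ⋊[mulAutArrow] H

/-- The inverse limit of the sequence `W 0 ← W 1 ← W 2 ← ...`: the group of all sequences `x` with
`p k (x (k + 1)) = x k`. -/
abbrev InvLim {W : ℕ → Type} [∀ k, Group (W k)] (p : ∀ k, W (k + 1) →* W k) : Subgroup (∀ k, W k) :=
  Pool.Agent.TH15.IGP.Lim p

/-- The defining property of the inverse limit. -/
theorem mem_invLim {W : ℕ → Type} [∀ k, Group (W k)] (p : ∀ k, W (k + 1) →* W k)
    (x : ∀ k, W k) : x ∈ InvLim p ↔ ∀ k, p k (x (k + 1)) = x k := Iff.rfl

/-- The group `H` is the group of a Galois extension of `K` which contains `L₀`, in such a way that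
`π : H → Gal(L₀/K)` is the restriction. -/
def OccursAbove (K L₀ : Type) [Field K] [Field L₀] [Algebra K L₀] (H : Type) [Group H]
    (π : H → (L₀ ≃ₐ[K] L₀)) : Prop :=
  ∃ (L : Type) (_ : Field L) (_ : Algebra K L) (_ : Algebra L₀ L) (_ : IsScalarTower K L₀ L)
    (_ : IsGalois K L) (ε : (L ≃ₐ[K] L) ≃* H),
    ∀ (σ : L ≃ₐ[K] L) (x : L₀), σ (algebraMap L₀ L x) = algebraMap L₀ L (π (ε σ) x)

end Pool.Agent.Results.MP_7f581e_nt.IteratedWreath

open Pool.Agent.Results.MP_7f581e_nt.IteratedWreath in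
theorem Pool.Agent.Results.MP_7f581e_nt.IteratedWreath.result
    (W : ℕ → Type) [∀ k, Group (W k)]
    (G : ℕ → Type) [∀ k, Group (G k)] [∀ k, Finite (G k)] (n : ℕ → ℕ)
    (X : ℕ → Type) [∀ k, Finite (X k)] [∀ k, MulAction (W k) (X k)]
    (p : ∀ k, W (k + 1) →* W k)
    (e : ∀ k, W (k + 1) ≃* PermWreath (Wr (G k) (n k)) (X k) (W k))
    (hn : ∀ k, ((Nat.card (G k) + 2).factorial) ^ 3 ≤ n k) (hp : ∀ k x, (e k x).right = p k x)
    (κ : Type) [Field κ] [Finite κ]
    (L₀ : Type) [Field L₀] [Algebra (RatFunc κ) L₀] [FiniteDimensional (RatFunc κ) L₀]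
    [IsGalois (RatFunc κ) L₀] (e₀ : (L₀ ≃ₐ[RatFunc κ] L₀) ≃* W 0) :
    OccursAbove (RatFunc κ) L₀ (InvLim p) (fun x => e₀.symm (x.1 0)) :=
  Pool.Agent.TH15.IGP.tower_field (RatFunc κ) W (fun k => Wr (G k) (n k)) X
    (fun k => Pool.Agent.TH15.IGP.uni_ff κ (G k) (n k) (hn k)) p e hp L₀ e₀
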