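import Mathlib
import Pool.Agent.TH377.IG.Steps

/-!
# Infinite regular towers over `κ(X)`, `κ` a finite field

Let `κ` be a finite field, `L` a finite extension of `κ` and
`Gal(L/κ) = W 0 ← W 1 ← W 2 ← ...` a sequence of homomorphisms of groups each of which is a `Step`
(see below; for example the kernel of `W (k + 1) → W k` is a wreath product `A_m ≀ S_n` with
`m ≥ 4`, `m ≠ 6` and `n ≥ ((3 |A_m| + 2)!)^3`, or `W (k + 1)` is the direct product of `W k` and
`G ≀ S_n`, where `G` is any finite group and `n ≥ ((3 |G| + 2)!)^3`). Then there is an infinite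
Galois extension `F` of `κ(X)` which contains `L`, whose group is the inverse limit of the `W k`
(compatibly with the action on `L`), and whose field of constants is exactly `L`.

With `L = κ` and `W 0 = 1`: the inverse limit of the `W k` is the Galois group of an extension of
`κ(X)` in which `κ` is algebraically closed.
-/

set_option autoImplicit false

open Pool.Agent.H391R2.T4

namespace Pool.Agent.Results.MP_7f581e_nt.RegularTowers

/-- The homomorphism `p : W' → W` is of one of the following two types.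
(1) `p` is the projection of a semidirect product `EG φ n = (G ≀ S_n) ⋊ W`, where `W` acts on the
finite group `G` through some `φ : W → Aut G` and on `G ≀ S_n = (Fin n → G) ⋊ Perm (Fin n)` through
the simultaneous action on all coordinates, and `n ≥ ((3 |G| + 2)!)^3`.
(2) `p` is surjective and its kernel is isomorphic to `G ≀ S_n`, where `G` is a nontrivial finite
group with trivial centre whose group of inner automorphisms has a complement in `Aut G`, and
`n ≥ ((3 |G| + 2)!)^3`. -/
def Step {W W' : Type} [Group W] [Group W'] (p : W' →* W) : Prop :=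
  (∃ (G : Type) (_ : Group G) (_ : Finite G) (φ : W →* MulAut G) (n : ℕ) (Θ : W' ≃* EG φ n),
    ((3 * Nat.card G + 2).factorial) ^ 3 ≤ n ∧ ∀ x, (Θ x).right = p x) ∨
  (Function.Surjective p ∧ ∃ (G : Type) (_ : Group G) (_ : Finite G) (_ : Nontrivial G) (n : ℕ),
    Subgroup.center G = ⊥ ∧
    (∃ T : Subgroup (MulAut G), IsCompl T (MulAut.conj : G →* MulAut G).range) ∧
    ((3 * Nat.card G + 2).factorial) ^ 3 ≤ n ∧
    Nonempty (p.ker ≃* ((Fin n → G) ⋊[mulAutArrow] Equiv.Perm (Fin n))))

/-- The inverse limit of the sequence `W 0 ← W 1 ← W 2 ← ...`: the group of all sequences `x` with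
`p k (x (k + 1)) = x k`. -/
abbrev InvLim {W : ℕ → Type} [∀ k, Group (W k)] (p : ∀ k, W (k + 1) →* W k) : Subgroup (∀ k, W k) :=
  Pool.Agent.TH15.IGP.Lim p

/-- The defining property of the inverse limit. -/
theorem mem_invLim {W : ℕ → Type} [∀ k, Group (W k)] (p : ∀ k, W (k + 1) →* W k)
    (x : ∀ k, W k) : x ∈ InvLim p ↔ ∀ k, p k (x (k + 1)) = x k := Iff.rfl

/-- All components of the isomorphism `γ` of `Gal(F/E)` with the inverse limit are continuous. -/
def Cont {E F : Type} [Field E] [Field F] [Algebra E F] {W : ℕ → Type} [∀ k, Group (W k)]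
    {p : ∀ k, W (k + 1) →* W k} (γ : (F ≃ₐ[E] F) ≃* InvLim p) : Prop :=
  ∀ k, IsOpen {σ : F ≃ₐ[E] F | (γ σ).1 k = 1}

/-- Each `σ` acts on the subfield `L` of `F` as `e₀ (component of γ σ in W 0)`. -/
def ActsOn {E F : Type} [Field E] [Field F] [Algebra E F] (K L : Type) [Field K] [Field L]
    [Algebra K L] [Algebra L F] {W : ℕ → Type} [∀ k, Group (W k)]
    {p : ∀ k, W (k + 1) →* W k} (γ : (F ≃ₐ[E] F) ≃* InvLim p) (e₀ : W 0 ≃* (L ≃ₐ[K] L)) : Prop :=
  ∀ (σ : F ≃ₐ[E] F) (x : L), σ (algebraMap L F x) = algebraMap L F (e₀ ((γ σ).1 0) x)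

/-- The embedding problem over `K` given by the finite Galois extension `L` of `K` and the
projection `x ↦ e₀ (x 0)` of the inverse limit of the `W k` to `Gal(L/K)` has a regular solution
over `K(t)`: there are a Galois extension `F` of `K(t)` containing `L` and an isomorphism `γ` of
`Gal(F/K(t))` with the inverse limit, all of whose components are continuous, such that the action
on `L` is `σ ↦ e₀ (component of γ σ in W 0)` and `L` is algebraically closed in `F`. -/
def RegularSol (K L : Type) [Field K] [Field L] [Algebra K L] {W : ℕ → Type} [∀ k, Group (W k)]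
    (p : ∀ k, W (k + 1) →* W k) (e₀ : W 0 ≃* (L ≃ₐ[K] L)) : Prop :=
  ∃ (F : Type) (_ : Field F) (_ : Algebra (RatFunc K) F) (_ : Algebra L F)
    (_ : Algebra K F) (_ : IsScalarTower K (RatFunc K) F) (_ : IsScalarTower K L F)
    (_ : IsGalois (RatFunc K) F) (γ : (F ≃ₐ[RatFunc K] F) ≃* InvLim p),
    Cont γ ∧ ActsOn K L γ e₀ ∧ ∀ y : F, IsAlgebraic L y → y ∈ Set.range (algebraMap L F)

end Pool.Agent.Results.MP_7f581e_nt.RegularTowers

open Pool.Agent.Results.MP_7f581e_nt.RegularTowers in
theorem Pool.Agent.Results.MP_7f581e_nt.RegularTowers.result :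
    ∀ (κ L : Type) [Field κ] [Finite κ] [Field L] [Algebra κ L] [FiniteDimensional κ L]
      (W : ℕ → Type) [∀ k, Group (W k)] (e₀ : W 0 ≃* (L ≃ₐ[κ] L))
      (p : ∀ k, W (k + 1) →* W k), (∀ k, Step (p k)) → RegularSol κ L p e₀ := by
  intro κ L _ _ _ _ _ W _ e₀ p hp
  have hL : Finite L := Module.finite_of_finite κ
  have hg : IsGalois κ L := inferInstance
  exact Pool.Agent.TH377.IG.tower_regular' κ L
    (fun Ω _ _ _ _ _ _ j => Pool.Agent.TH377.IG.regStep_fin κ L Ω j) W p hp e₀
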